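import Pool.Agent.Helper60.KS.St
import Pool.Agent.Helper89.SLE.Div

/-!
Project KS (MP_768c9c_nt), module KC-5: the two-walk lemma (6.6).
-/

set_option autoImplicit false

open Finset
open scoped Classical

namespace Pool.Agent.Helper71.KC

open Pool.Agent.Helper60.KS

/-- the number of `δ`-spaced points in an interval of length `ℓ` is at most `1 + ℓ / δ` -/
theorem card_spaced {ι : Type*} (S : Finset ι) (f : ι → ℝ) {δ x ℓ : ℝ} (hδ : 0 < δ)
    (hsp : ∀ i ∈ S, ∀ j ∈ S, i ≠ j → δ ≤ |f i - f j|)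
    (hI : ∀ i ∈ S, x ≤ f i ∧ f i ≤ x + ℓ) (hℓ : 0 ≤ ℓ) : (S.card : ℝ) ≤ 1 + ℓ / δ := by
  have h1 : S.card ≤ (range (⌊ℓ / δ⌋₊ + 1)).card := by
    refine Finset.card_le_card_of_injOn (fun i => ⌊(f i - x) / δ⌋₊) ?_ ?_
    · intro i hi
      have hi' := hI i hi
      simp only [coe_range, Set.mem_Iio]
      refine Nat.lt_succ_of_le (Nat.floor_le_floor ?_)
      exact div_le_div_of_nonneg_right (by linarith) hδ.le
    · intro i hi j hj hij
      by_contra hne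
      have h2 := hsp i hi j hj hne
      have hi0 : 0 ≤ (f i - x) / δ := div_nonneg (by linarith [(hI i hi).1]) hδ.le
      have hj0 : 0 ≤ (f j - x) / δ := div_nonneg (by linarith [(hI j hj).1]) hδ.le
      have hij' : ⌊(f i - x) / δ⌋₊ = ⌊(f j - x) / δ⌋₊ := hij
      have e1 := Nat.floor_le hi0
      have e2 := Nat.lt_floor_add_one ((f i - x) / δ)
      have e3 := Nat.floor_le hj0
      have e4 := Nat.lt_floor_add_one ((f j - x) / δ)
      rw [hij'] at e1 e2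
      have h3 : |(f i - x) / δ - (f j - x) / δ| < 1 := by
        rw [abs_lt]
        constructor <;> linarith
      rw [← sub_div, abs_div, abs_of_pos hδ, div_lt_one hδ] at h3
      have h4 : f i - x - (f j - x) = f i - f j := by ring
      rw [h4] at h3
      linarith
  rw [card_range] at h1
  have h5 : ((⌊ℓ / δ⌋₊ : ℕ) : ℝ) ≤ ℓ / δ := Nat.floor_le (div_nonneg hℓ hδ.le)
  have h6 : (S.card : ℝ) ≤ ((⌊ℓ / δ⌋₊ + 1 : ℕ) : ℝ) := by exact_mod_cast h1
  push_cast at h6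
  linarith

theorem log_sep {x y : ℕ} {M : ℝ} (hx : 1 ≤ x) (hy : 1 ≤ y) (hxy : x ≠ y) (hxM : (x : ℝ) ≤ M)
    (hyM : (y : ℝ) ≤ M) : 1 / M ≤ |Real.log x - Real.log y| := by
  have key : ∀ x y : ℕ, 1 ≤ x → 1 ≤ y → y < x → (x : ℝ) ≤ M → 1 / M ≤ Real.log x - Real.log y := by
    intro x y hx hy hxy hxM
    have hx0 : (0 : ℝ) < x := by exact_mod_cast hx
    have hy0 : (0 : ℝ) < y := by exact_mod_cast hy
    have h1 := Real.log_le_sub_one_of_pos (div_pos hy0 hx0)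
    rw [Real.log_div hy0.ne' hx0.ne'] at h1
    have h2 : (y : ℝ) + 1 ≤ x := by exact_mod_cast hxy
    have h3 : (y : ℝ) / x ≤ 1 - 1 / x := by
      rw [div_le_iff₀ hx0]
      have : (1 - 1 / (x : ℝ)) * x = x - 1 := by field_simp
      rw [this]
      linarith
    have h4 : 1 / M ≤ 1 / (x : ℝ) := one_div_le_one_div_of_le hx0 hxM
    linarith
  rcases lt_or_gt_of_ne hxy with h | h
  · have := key y x hy hx h hyM
    rw [abs_sub_comm]
    exact this.trans (le_abs_self _)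
  · exact (key x y hx hy h hxM).trans (le_abs_self _)

/-- coprime pairs `(a, b)` with `g ≤ max a b < 2 g` and `|s - log (a / b)| ≤ 1 / T` -/
noncomputable def pr (T : ℝ) (g : ℕ) (s : ℝ) : Finset (ℕ × ℕ) :=
  (Icc 1 (2 * g) ×ˢ Icc 1 (2 * g)).filter (fun p => p.1.Coprime p.2 ∧ g ≤ max p.1 p.2 ∧
    max p.1 p.2 < 2 * g ∧ |s - (Real.log p.1 - Real.log p.2)| ≤ 1 / T)

theorem cross_ne {a b a' b' : ℕ} (ha : 1 ≤ a) (h : a.Coprime b)
    (h' : a'.Coprime b') (hne : (a, b) ≠ (a', b')) : a * b' ≠ a' * b := by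
  intro he
  apply hne
  have h1 : a ∣ a' := by
    have : a ∣ a' * b := ⟨b', he.symm⟩
    exact h.dvd_of_dvd_mul_right this
  have h2 : a' ∣ a := by
    have : a' ∣ a * b' := ⟨b, he⟩
    exact h'.dvd_of_dvd_mul_right this
  have h3 : a = a' := Nat.dvd_antisymm h1 h2
  subst h3
  have h4 : b' = b := Nat.eq_of_mul_eq_mul_left ha he
  rw [h4]

theorem card_pr {T : ℝ} (hT : 1 ≤ T) {g : ℕ} (hg : 1 ≤ g) (s : ℝ) :
    ((pr T g s).card : ℝ) ≤ 1 + 8 * (g : ℝ) ^ 2 / T := by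
  have hT0 : 0 < T := by linarith
  have hg0 : (0 : ℝ) < g := by exact_mod_cast hg
  have h1 := card_spaced (pr T g s) (fun p => Real.log p.1 - Real.log p.2)
    (δ := 1 / (4 * (g : ℝ) ^ 2)) (x := s - 1 / T) (ℓ := 2 / T) (by positivity) ?_ ?_
    (by positivity)
  · refine h1.trans (le_of_eq ?_)
    field_simp
    ring
  · intro p hp q hq hpq
    simp only [pr, mem_filter, mem_product, mem_Icc] at hp hq
    obtain ⟨⟨⟨hp1, hp2⟩, hp3, hp4⟩, hp5, -, -, -⟩ := hp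
    obtain ⟨⟨⟨hq1, hq2⟩, hq3, hq4⟩, hq5, -, -, -⟩ := hq
    have hne := cross_ne hp1 hp5 hq5 hpq
    have hb : ∀ x y : ℕ, x ≤ 2 * g → y ≤ 2 * g → ((x * y : ℕ) : ℝ) ≤ 4 * (g : ℝ) ^ 2 := by
      intro x y hx hy
      have : x * y ≤ (2 * g) * (2 * g) := Nat.mul_le_mul hx hy
      have h2 : ((x * y : ℕ) : ℝ) ≤ (((2 * g) * (2 * g) : ℕ) : ℝ) := by exact_mod_cast this
      push_cast at h2 ⊢
      linarith
    have h3 := log_sep (M := 4 * (g : ℝ) ^ 2) (Nat.mul_pos hp1 hq3 : 0 < p.1 * q.2)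
      (Nat.mul_pos hq1 hp3 : 0 < q.1 * p.2) hne (hb _ _ hp2 hq4) (hb _ _ hq2 hp4)
    have e1 : (0 : ℝ) < p.1 := by exact_mod_cast hp1
    have e2 : (0 : ℝ) < p.2 := by exact_mod_cast hp3
    have e3 : (0 : ℝ) < q.1 := by exact_mod_cast hq1
    have e4 : (0 : ℝ) < q.2 := by exact_mod_cast hq3
    push_cast at h3
    rw [Real.log_mul e1.ne' e4.ne', Real.log_mul e3.ne' e2.ne'] at h3
    refine h3.trans (le_of_eq ?_)
    congr 1
    ring
  · intro p hp
    simp only [pr, mem_filter] at hp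
    have h2 := abs_le.1 hp.2.2.2.2
    constructor
    · linarith [h2.2]
    · have : s - 1 / T + 2 / T = s + 1 / T := by ring
      linarith [h2.1]

/-- pairs `(u, u')` admitting such a fraction -/
noncomputable def AA (U : Finset ℝ) (T : ℝ) (g : ℕ) : Finset (ℝ × ℝ) :=
  (U ×ˢ U).filter (fun p => (pr T g (p.1 - p.2)).Nonempty)

theorem card_AA_le (U : Finset ℝ) (T : ℝ) (g : ℕ) : (AA U T g).card ≤ U.card ^ 2 := by
  refine (Finset.card_filter_le _ _).trans ?_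
  rw [card_product, sq]

theorem ET_mono {U : Finset ℝ} {T : ℝ} {Q Q' : ℕ} (hQ : 1 ≤ Q) : ET U T Q Q' ≤ ET U T 1 Q' := by
  unfold ET
  refine Finset.card_le_card (Finset.filter_subset_filter _ ?_)
  have h1 : U ×ˢ Icc Q Q' ⊆ U ×ˢ Icc 1 Q' :=
    Finset.product_subset_product_right (Finset.Icc_subset_Icc_left hQ)
  exact Finset.product_subset_product h1 h1

/-- (2): upper bound for the number of coincidences -/
theorem ET_le_sum {U : Finset ℝ} {T : ℝ} (hT : 1 ≤ T) (Q' : ℕ) :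
    (ET U T 1 Q' : ℝ) ≤ ∑ i ∈ range (Nat.log 2 Q' + 1),
      ((AA U T (2 ^ i)).card : ℝ) * ((1 + 8 * ((2 : ℝ) ^ i) ^ 2 / T) * ((Q' : ℝ) / 2 ^ i)) := by
  have hT0 : 0 < T := by linarith
  set E := (((U ×ˢ Finset.Icc 1 Q') ×ˢ (U ×ˢ Finset.Icc 1 Q')).filter
    (fun p => |(p.1.1 - Real.log p.1.2) - (p.2.1 - Real.log p.2.2)| ≤ 1 / T)) with hE
  have hcard : ET U T 1 Q' = E.card := rfl
  rw [hcard]
  set lev : (ℝ × ℕ) × (ℝ × ℕ) → ℕ := fun p =>
    Nat.log 2 (max (p.1.2 / Nat.gcd p.1.2 p.2.2) (p.2.2 / Nat.gcd p.1.2 p.2.2)) with hlev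
  have hmaps : ∀ p ∈ E, lev p ∈ range (Nat.log 2 Q' + 1) := by
    intro p hp
    simp only [hE, mem_filter, mem_product, mem_Icc] at hp
    obtain ⟨⟨⟨-, -, h2⟩, -, -, h4⟩, -⟩ := hp
    rw [mem_range, Nat.lt_succ_iff]
    refine Nat.log_mono_right (max_le ?_ ?_)
    · exact (Nat.div_le_self _ _).trans h2
    · exact (Nat.div_le_self _ _).trans h4
  rw [Finset.card_eq_sum_card_fiberwise hmaps]
  push_cast
  refine Finset.sum_le_sum fun i _ => ?_
  set B := (AA U T (2 ^ i)).sigma (fun p => (pr T (2 ^ i) (p.1 - p.2)) ×ˢ Icc 1 (Q' / 2 ^ i)) with hB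
  have h1 : (E.filter (fun p => lev p = i)).card ≤ B.card := by
    refine Finset.card_le_card_of_injOn (fun p => (⟨(p.1.1, p.2.1),
      ((p.1.2 / Nat.gcd p.1.2 p.2.2, p.2.2 / Nat.gcd p.1.2 p.2.2), Nat.gcd p.1.2 p.2.2)⟩ :
        Σ _ : ℝ × ℝ, (ℕ × ℕ) × ℕ)) ?_ ?_
    · intro p hp
      rw [mem_coe, mem_filter] at hp
      obtain ⟨hp, hpi⟩ := hp
      simp only [hE, mem_filter, mem_product, mem_Icc] at hp
      obtain ⟨⟨⟨hu, h1, h2⟩, hu', h3, h4⟩, h5⟩ := hp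
      set m := Nat.gcd p.1.2 p.2.2 with hm
      have hm0 : 0 < m := Nat.gcd_pos_of_pos_left _ h1
      set a := p.1.2 / m with ha
      set b := p.2.2 / m with hb
      have hna : p.1.2 = m * a := (Nat.mul_div_cancel' (Nat.gcd_dvd_left _ _)).symm
      have hnb : p.2.2 = m * b := (Nat.mul_div_cancel' (Nat.gcd_dvd_right _ _)).symm
      have ha1 : 1 ≤ a := by
        rcases Nat.eq_zero_or_pos a with h | h
        · rw [h, mul_zero] at hna
          omega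
        · exact h
      have hb1 : 1 ≤ b := by
        rcases Nat.eq_zero_or_pos b with h | h
        · rw [h, mul_zero] at hnb
          omega
        · exact h
      have hcop : a.Coprime b := Nat.coprime_div_gcd_div_gcd hm0
      have hlv : Nat.log 2 (max a b) = i := hpi
      have hmax0 : max a b ≠ 0 := by
        have := le_max_left a b
        omega
      have hl1 : 2 ^ i ≤ max a b := by
        rw [← hlv]
        exact Nat.pow_log_le_self 2 hmax0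
      have hl2 : max a b < 2 * 2 ^ i := by
        have := Nat.lt_pow_succ_log_self (b := 2) (by norm_num) (max a b)
        rw [hlv, Nat.succ_eq_add_one, pow_succ] at this
        omega
      have hmr : (0 : ℝ) < m := by exact_mod_cast hm0
      have har : (0 : ℝ) < a := by exact_mod_cast ha1
      have hbr : (0 : ℝ) < b := by exact_mod_cast hb1
      have hmem : (a, b) ∈ pr T (2 ^ i) (p.1.1 - p.2.1) := by
        simp only [pr, mem_filter, mem_product, mem_Icc]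
        have g1 := le_max_left a b
        have g2 := le_max_right a b
        refine ⟨⟨⟨ha1, by omega⟩, hb1, by omega⟩, hcop, hl1, hl2, ?_⟩
        rw [hna, hnb] at h5
        push_cast at h5
        rw [Real.log_mul hmr.ne' har.ne', Real.log_mul hmr.ne' hbr.ne'] at h5
        refine le_trans (le_of_eq ?_) h5
        congr 1
        ring
      rw [mem_coe, hB, mem_sigma]
      refine ⟨?_, ?_⟩
      · simp only [AA, mem_filter, mem_product]
        exact ⟨⟨hu, hu'⟩, ⟨_, hmem⟩⟩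
      · simp only [mem_product, mem_Icc]
        refine ⟨hmem, hm0, ?_⟩
        rw [Nat.le_div_iff_mul_le (by positivity)]
        calc m * 2 ^ i ≤ m * max a b := Nat.mul_le_mul_left _ hl1
          _ = max (m * a) (m * b) := by rw [Nat.mul_max_mul_left]
          _ ≤ Q' := by
            rw [← hna, ← hnb]
            exact max_le h2 h4
    · intro p hp q hq hpq
      rw [mem_coe, mem_filter] at hp hq
      simp only [Sigma.mk.injEq, Prod.mk.injEq, heq_eq_eq] at hpq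
      obtain ⟨⟨e1, e2⟩, ⟨e3, e4⟩, e5⟩ := hpq
      have d1 := Nat.div_mul_cancel (Nat.gcd_dvd_left p.1.2 p.2.2)
      have d2 := Nat.div_mul_cancel (Nat.gcd_dvd_right p.1.2 p.2.2)
      have d3 := Nat.div_mul_cancel (Nat.gcd_dvd_left q.1.2 q.2.2)
      have d4 := Nat.div_mul_cancel (Nat.gcd_dvd_right q.1.2 q.2.2)
      rw [e3, e5, d3] at d1
      rw [e4, e5, d4] at d2
      exact Prod.ext (Prod.ext e1 d1.symm) (Prod.ext e2 d2.symm)
  have h2 : (B.card : ℝ) ≤ ((AA U T (2 ^ i)).card : ℝ) *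
      ((1 + 8 * ((2 : ℝ) ^ i) ^ 2 / T) * ((Q' : ℝ) / 2 ^ i)) := by
    rw [hB, Finset.card_sigma]
    push_cast
    rw [← nsmul_eq_mul, ← Finset.sum_const]
    refine Finset.sum_le_sum fun p _ => ?_
    rw [card_product]
    push_cast
    refine mul_le_mul ?_ ?_ (Nat.cast_nonneg _) (by positivity)
    · have := card_pr hT (g := 2 ^ i) Nat.one_le_two_pow (p.1 - p.2)
      push_cast at this
      exact this
    · rw [Nat.card_Icc, Nat.add_sub_cancel]
      have := Nat.cast_div_le (α := ℝ) (m := Q') (n := 2 ^ i)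
      push_cast at this
      exact this
  have h3 : ((E.filter (fun p => lev p = i)).card : ℝ) ≤ B.card := by exact_mod_cast h1
  exact h3.trans h2

/-- (2'): upper bound in terms of `M` -/
theorem ET_le {U : Finset ℝ} {T M : ℝ} (hT : 1 ≤ T) {Q' : ℕ} (hQ' : 1 ≤ Q')
    (hM : ∀ i : ℕ, ((AA U T (2 ^ i)).card : ℝ) ≤ M * U.card * 2 ^ i) :
    (ET U T 1 Q' : ℝ) ≤ ((Nat.log 2 Q' + 1 : ℕ) : ℝ) * (M * U.card * Q') +
      16 * (U.card : ℝ) ^ 2 * (Q' : ℝ) ^ 2 / T := by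
  have hT0 : 0 < T := by linarith
  have hQ0 : (0 : ℝ) < Q' := by exact_mod_cast hQ'
  refine (ET_le_sum hT Q').trans ?_
  have h1 : ∀ i ∈ range (Nat.log 2 Q' + 1),
      ((AA U T (2 ^ i)).card : ℝ) * ((1 + 8 * ((2 : ℝ) ^ i) ^ 2 / T) * ((Q' : ℝ) / 2 ^ i)) ≤
      M * U.card * Q' + (8 * (U.card : ℝ) ^ 2 * Q' / T) * 2 ^ i := by
    intro i _
    have h2i : (0 : ℝ) < 2 ^ i := by positivity
    have e1 : ((AA U T (2 ^ i)).card : ℝ) * ((1 + 8 * ((2 : ℝ) ^ i) ^ 2 / T) * ((Q' : ℝ) / 2 ^ i)) =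
      ((AA U T (2 ^ i)).card : ℝ) * ((Q' : ℝ) / 2 ^ i) +
        ((AA U T (2 ^ i)).card : ℝ) * (8 * Q' / T * 2 ^ i) := by
      field_simp
    rw [e1]
    refine add_le_add ?_ ?_
    · calc ((AA U T (2 ^ i)).card : ℝ) * ((Q' : ℝ) / 2 ^ i)
          ≤ (M * U.card * 2 ^ i) * ((Q' : ℝ) / 2 ^ i) :=
            mul_le_mul_of_nonneg_right (hM i) (by positivity)
        _ = M * U.card * Q' := by field_simp
    · have h2 : ((AA U T (2 ^ i)).card : ℝ) ≤ (U.card : ℝ) ^ 2 := by exact_mod_cast card_AA_le U T _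
      calc ((AA U T (2 ^ i)).card : ℝ) * (8 * Q' / T * 2 ^ i)
          ≤ (U.card : ℝ) ^ 2 * (8 * Q' / T * 2 ^ i) :=
            mul_le_mul_of_nonneg_right h2 (by positivity)
        _ = (8 * (U.card : ℝ) ^ 2 * Q' / T) * 2 ^ i := by ring
  refine (Finset.sum_le_sum h1).trans ?_
  rw [Finset.sum_add_distrib, Finset.sum_const, card_range, nsmul_eq_mul, ← Finset.mul_sum]
  refine add_le_add le_rfl ?_
  have h3 : ∑ i ∈ range (Nat.log 2 Q' + 1), (2 : ℝ) ^ i ≤ 2 * Q' := by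
    have h4 : ∑ i ∈ range (Nat.log 2 Q' + 1), (2 : ℝ) ^ i = 2 ^ (Nat.log 2 Q' + 1) - 1 := by
      rw [geom_sum_eq (by norm_num)]
      norm_num
    have h5 : 2 ^ Nat.log 2 Q' ≤ Q' := Nat.pow_log_le_self 2 (by omega)
    have h6 : ((2 : ℝ)) ^ Nat.log 2 Q' ≤ Q' := by exact_mod_cast h5
    rw [h4, pow_succ]
    linarith
  calc 8 * (U.card : ℝ) ^ 2 * Q' / T * ∑ i ∈ range (Nat.log 2 Q' + 1), (2 : ℝ) ^ i
      ≤ 8 * (U.card : ℝ) ^ 2 * Q' / T * (2 * Q') := mul_le_mul_of_nonneg_left h3 (by positivity)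
    _ = 16 * (U.card : ℝ) ^ 2 * (Q' : ℝ) ^ 2 / T := by ring

/-- (4): two-walks -/
theorem two_walks (hPC : PairCount) {U : Finset ℝ} {T D : ℝ} (hT : 1 ≤ T)
    (hU : SpacedR U (1 / T)) {g : ℕ} (hg : 1 ≤ g)
    (hD : ∀ n : ℕ, 1 ≤ n → n ≤ 4 * g ^ 2 → (n.divisors.card : ℝ) ≤ D) :
    ((AA U T g).card : ℝ) ^ 2 ≤ U.card * (15 * D ^ 2 * ET U T 1 (4 * g ^ 2)) := by
  have hT0 : 0 < T := by linarith
  have hD1 : 1 ≤ D := by
    have := hD 1 le_rfl (by nlinarith)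
    simpa using this
  set A := AA U T g with hA
  set W := (A ×ˢ A).filter (fun q => q.1.2 = q.2.2) with hW
  -- Cauchy-Schwarz
  have hmA : ∀ p ∈ A, p.2 ∈ U := by
    intro p hp
    simp only [hA, AA, mem_filter, mem_product] at hp
    exact hp.1.2
  have hc1 : A.card = ∑ u ∈ U, (A.filter (fun p => p.2 = u)).card :=
    Finset.card_eq_sum_card_fiberwise hmA
  have hc2 : W.card = ∑ u ∈ U, (A.filter (fun p => p.2 = u)).card ^ 2 := by
    have hmW : ∀ q ∈ W, q.1.2 ∈ U := by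
      intro q hq
      rw [hW, mem_filter, mem_product] at hq
      exact hmA _ hq.1.1
    rw [Finset.card_eq_sum_card_fiberwise hmW]
    refine Finset.sum_congr rfl fun u _ => ?_
    rw [sq, ← card_product]
    congr 1
    ext q
    simp only [hW, mem_filter, mem_product]
    constructor
    · rintro ⟨⟨⟨h1, h2⟩, h3⟩, h4⟩
      exact ⟨⟨h1, h4⟩, h2, h3.symm.trans h4⟩
    · rintro ⟨⟨h1, h2⟩, h3, h4⟩
      exact ⟨⟨⟨h1, h3⟩, h2.trans h4.symm⟩, h2⟩
  have hCS : (A.card : ℝ) ^ 2 ≤ U.card * W.card := by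
    rw [hc1, hc2]
    push_cast
    exact sq_sum_le_card_mul_sum_sq
  -- witnesses
  have hex : ∀ s : ℝ, ∃ w : ℕ × ℕ, (pr T g s).Nonempty → w ∈ pr T g s := by
    intro s
    by_cases h : (pr T g s).Nonempty
    · obtain ⟨w, hw⟩ := h
      exact ⟨w, fun _ => hw⟩
    · exact ⟨(1, 1), fun h' => absurd h' h⟩
  choose wit hwit using hex
  set E2 : Finset ((ℝ × ℕ) × (ℝ × ℕ)) :=
    (((U ×ˢ Finset.Icc 1 (4 * g ^ 2)) ×ˢ (U ×ˢ Finset.Icc 1 (4 * g ^ 2))).filter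
      (fun p => |(p.1.1 - Real.log p.1.2) - (p.2.1 - Real.log p.2.2)| ≤ 2 * (1 / T))) with hE2
  set F : (ℝ × ℝ) × (ℝ × ℝ) → (ℝ × ℕ) × (ℝ × ℕ) := fun q =>
    ((q.1.1, (wit (q.1.1 - q.1.2)).1 * (wit (q.2.1 - q.2.2)).2),
      (q.2.1, (wit (q.1.1 - q.1.2)).2 * (wit (q.2.1 - q.2.2)).1)) with hF
  have hWfacts : ∀ q ∈ W, q.1.1 ∈ U ∧ q.2.1 ∈ U ∧ q.1.2 ∈ U ∧ q.1.2 = q.2.2 ∧
      wit (q.1.1 - q.1.2) ∈ pr T g (q.1.1 - q.1.2) ∧
      wit (q.2.1 - q.2.2) ∈ pr T g (q.2.1 - q.2.2) := by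
    intro q hq
    simp only [hW, hA, AA, mem_filter, mem_product] at hq
    obtain ⟨⟨⟨⟨h1, h2⟩, h3⟩, ⟨h4, h5⟩, h6⟩, h7⟩ := hq
    exact ⟨h1, h4, h2, h7, hwit _ h3, hwit _ h6⟩
  have hmaps : ∀ q ∈ W, F q ∈ E2 := by
    intro q hq
    obtain ⟨h1, h2, h3, h4, h5, h6⟩ := hWfacts q hq
    simp only [pr, mem_filter, mem_product, mem_Icc] at h5 h6
    obtain ⟨⟨⟨a1, a2⟩, a3, a4⟩, -, -, -, a5⟩ := h5
    obtain ⟨⟨⟨b1, b2⟩, b3, b4⟩, -, -, -, b5⟩ := h6
    set a := (wit (q.1.1 - q.1.2)).1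
    set b := (wit (q.1.1 - q.1.2)).2
    set a' := (wit (q.2.1 - q.2.2)).1
    set b' := (wit (q.2.1 - q.2.2)).2
    have hb : ∀ x y : ℕ, x ≤ 2 * g → y ≤ 2 * g → x * y ≤ 4 * g ^ 2 := by
      intro x y hx hy
      calc x * y ≤ (2 * g) * (2 * g) := Nat.mul_le_mul hx hy
        _ = 4 * g ^ 2 := by ring
    simp only [hE2, hF, mem_filter, mem_product, mem_Icc]
    refine ⟨⟨⟨h1, Nat.mul_pos a1 b3, hb _ _ a2 b4⟩, h2, Nat.mul_pos a3 b1, hb _ _ a4 b2⟩, ?_⟩
    have e1 : (0 : ℝ) < a := by exact_mod_cast a1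
    have e2 : (0 : ℝ) < b := by exact_mod_cast a3
    have e3 : (0 : ℝ) < a' := by exact_mod_cast b1
    have e4 : (0 : ℝ) < b' := by exact_mod_cast b3
    push_cast
    rw [Real.log_mul e1.ne' e4.ne', Real.log_mul e2.ne' e3.ne']
    have e5 : q.1.1 - (Real.log a + Real.log b') - (q.2.1 - (Real.log b + Real.log a')) =
        (q.1.1 - q.1.2 - (Real.log a - Real.log b)) -
          (q.2.1 - q.2.2 - (Real.log a' - Real.log b')) := by
      rw [h4]
      ring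
    rw [e5]
    refine (abs_sub _ _).trans ?_
    linarith
  have hfib : ∀ e ∈ E2, ((W.filter (fun q => F q = e)).card : ℝ) ≤ 3 * D ^ 2 := by
    intro e he
    simp only [hE2, mem_filter, mem_product, mem_Icc] at he
    obtain ⟨⟨⟨e1, e2, e3⟩, e4, e5, e6⟩, -⟩ := he
    set Bu := (e.1.2.divisors ×ˢ e.2.2.divisors).biUnion (fun ab =>
      U.filter (fun u => |e.1.1 - u - (Real.log ab.1 - Real.log ab.2)| ≤ 1 / T)) with hBu
    have h1 : (W.filter (fun q => F q = e)).card ≤ Bu.card := by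
      refine Finset.card_le_card_of_injOn (fun q => q.1.2) ?_ ?_
      · intro q hq
        rw [mem_coe, mem_filter] at hq
        obtain ⟨hq, hqe⟩ := hq
        obtain ⟨h1, h2, h3, h4, h5, h6⟩ := hWfacts q hq
        simp only [pr, mem_filter, mem_product, mem_Icc] at h5
        rw [mem_coe, hBu, mem_biUnion]
        refine ⟨wit (q.1.1 - q.1.2), ?_, ?_⟩
        · rw [mem_product, Nat.mem_divisors, Nat.mem_divisors]
          rw [← hqe]
          refine ⟨⟨Dvd.intro _ rfl, ?_⟩, Dvd.intro _ rfl, ?_⟩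
          · rw [hqe]
            omega
          · rw [hqe]
            omega
        · rw [mem_filter]
          refine ⟨h3, ?_⟩
          have h7 : e.1.1 = q.1.1 := by rw [← hqe]
          rw [h7]
          exact h5.2.2.2.2
      · intro q hq q' hq' hqq'
        rw [mem_coe, mem_filter] at hq hq'
        obtain ⟨hq, hqe⟩ := hq
        obtain ⟨hq', hqe'⟩ := hq'
        obtain ⟨-, -, -, h4, -, -⟩ := hWfacts q hq
        obtain ⟨-, -, -, h4', -, -⟩ := hWfacts q' hq'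
        have h5 : F q = F q' := hqe.trans hqe'.symm
        simp only [hF, Prod.mk.injEq] at h5
        have h6 : q.1.2 = q'.1.2 := hqq'
        exact Prod.ext (Prod.ext h5.1.1 h6) (Prod.ext h5.2.1 (by rw [← h4, h6, h4']))
    have h2 : (Bu.card : ℝ) ≤ 3 * D ^ 2 := by
      have h3 : Bu.card ≤ ∑ ab ∈ e.1.2.divisors ×ˢ e.2.2.divisors,
          (U.filter (fun u => |e.1.1 - u - (Real.log ab.1 - Real.log ab.2)| ≤ 1 / T)).card :=
        Finset.card_biUnion_le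
      have h4 : ∀ ab ∈ e.1.2.divisors ×ˢ e.2.2.divisors,
          ((U.filter (fun u => |e.1.1 - u - (Real.log ab.1 - Real.log ab.2)| ≤ 1 / T)).card : ℝ) ≤
            3 := by
        intro ab _
        have h5 := card_spaced
          (U.filter (fun u => |e.1.1 - u - (Real.log ab.1 - Real.log ab.2)| ≤ 1 / T))
          (fun u => u) (δ := 1 / T) (x := e.1.1 - (Real.log ab.1 - Real.log ab.2) - 1 / T)
          (ℓ := 2 / T) (by positivity) ?_ ?_ (by positivity)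
        · refine h5.trans (le_of_eq ?_)
          field_simp
          norm_num
        · intro u hu u' hu' hne
          exact hU u (Finset.mem_filter.1 hu).1 u' (Finset.mem_filter.1 hu').1 hne
        · intro u hu
          have h6 := abs_le.1 (Finset.mem_filter.1 hu).2
          constructor
          · linarith [h6.2]
          · have : e.1.1 - (Real.log ab.1 - Real.log ab.2) - 1 / T + 2 / T =
              e.1.1 - (Real.log ab.1 - Real.log ab.2) + 1 / T := by ring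
            linarith [h6.1]
      have h5 : (Bu.card : ℝ) ≤ ∑ ab ∈ e.1.2.divisors ×ˢ e.2.2.divisors, (3 : ℝ) := by
        refine le_trans ?_ (Finset.sum_le_sum h4)
        exact_mod_cast h3
      rw [Finset.sum_const, card_product, nsmul_eq_mul] at h5
      push_cast at h5
      have h6 := hD _ e2 e3
      have h7 := hD _ e5 e6
      have h8 : (e.1.2.divisors.card : ℝ) * (e.2.2.divisors.card : ℝ) ≤ D * D :=
        mul_le_mul h6 h7 (Nat.cast_nonneg _) (by linarith)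
      nlinarith
    have h3 : ((W.filter (fun q => F q = e)).card : ℝ) ≤ Bu.card := by exact_mod_cast h1
    exact h3.trans h2
  have hWE : (W.card : ℝ) ≤ 3 * D ^ 2 * E2.card := by
    rw [Finset.card_eq_sum_card_fiberwise hmaps]
    push_cast
    refine (Finset.sum_le_sum hfib).trans ?_
    rw [Finset.sum_const, nsmul_eq_mul]
    exact le_of_eq (mul_comm _ _)
  have hpc : E2.card ≤ 5 * ET U T 1 (4 * g ^ 2) :=
    hPC (ℝ × ℕ) (U ×ˢ Icc 1 (4 * g ^ 2)) (fun p => p.1 - Real.log p.2) (1 / T) (by positivity)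
  have hpc' : (E2.card : ℝ) ≤ 5 * ET U T 1 (4 * g ^ 2) := by exact_mod_cast hpc
  refine hCS.trans (mul_le_mul_of_nonneg_left ?_ (Nat.cast_nonneg _))
  calc (W.card : ℝ) ≤ 3 * D ^ 2 * E2.card := hWE
    _ ≤ 3 * D ^ 2 * (5 * ET U T 1 (4 * g ^ 2)) := mul_le_mul_of_nonneg_left hpc' (by positivity)
    _ = 15 * D ^ 2 * ET U T 1 (4 * g ^ 2) := by ring

theorem card_le_AA_one {U : Finset ℝ} {T : ℝ} (hT : 1 ≤ T) : U.card ≤ (AA U T (2 ^ 0)).card := by
  refine Finset.card_le_card_of_injOn (fun u => (u, u)) ?_ ?_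
  · intro u hu
    simp only [AA, mem_coe, mem_filter, mem_product]
    refine ⟨⟨hu, hu⟩, (1, 1), ?_⟩
    simp only [pr, mem_filter, mem_product, mem_Icc]
    have hT0 : (0 : ℝ) ≤ 1 / T := by positivity
    refine ⟨⟨⟨by norm_num, by norm_num⟩, by norm_num, by norm_num⟩, by norm_num, by norm_num,
      by norm_num, ?_⟩
    simp only [sub_self, abs_zero]
    exact hT0
  · intro u _ u' _ h
    exact (Prod.mk.inj h).1

/-- (3), (5): the extremal argument -/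
theorem exists_M (hPC : PairCount) {U : Finset ℝ} {T D : ℝ} (hT : 1 ≤ T)
    (hU : SpacedR U (1 / T)) (hne : U.Nonempty)
    (hD : ∀ n : ℕ, 1 ≤ n → n ≤ 4 * U.card ^ 2 → (n.divisors.card : ℝ) ≤ D) :
    ∃ M : ℝ, (∀ i : ℕ, ((AA U T (2 ^ i)).card : ℝ) ≤ M * U.card * 2 ^ i) ∧
      M ≤ 120 * D ^ 3 * (1 + ((U.card : ℝ) ^ 3 / T) ^ (1 / 4 : ℝ)) := by
  have hT0 : 0 < T := by linarith
  set R : ℝ := (U.card : ℝ) with hR
  have hR1n : 1 ≤ U.card := Finset.card_pos.2 hne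
  have hR1 : 1 ≤ R := by
    rw [hR]
    exact_mod_cast hR1n
  have hR0 : 0 < R := by linarith
  have hD1 : 1 ≤ D := by
    have := hD 1 le_rfl (by nlinarith)
    simpa using this
  obtain ⟨i0, hi0, hmax⟩ := Finset.exists_max_image (range (U.card + 1))
    (fun i => ((AA U T (2 ^ i)).card : ℝ) / 2 ^ i) ⟨0, mem_range.2 (Nat.succ_pos _)⟩
  set A0 : ℝ := ((AA U T (2 ^ i0)).card : ℝ) with hA0
  set M : ℝ := A0 / (R * 2 ^ i0) with hM
  have h2i : (0 : ℝ) < 2 ^ i0 := by positivity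
  have hMR : M * R * 2 ^ i0 = A0 := by
    rw [hM]
    field_simp
  have hMR' : M * R = A0 / 2 ^ i0 := by
    rw [hM]
    field_simp
  have hAR : R ≤ M * R := by
    rw [hMR']
    have h1 := hmax 0 (mem_range.2 (Nat.succ_pos _))
    have h2 : (U.card : ℝ) ≤ ((AA U T (2 ^ 0)).card : ℝ) := by exact_mod_cast card_le_AA_one hT
    refine le_trans ?_ h1
    have e0 : ((AA U T (2 ^ 0)).card : ℝ) / 2 ^ 0 = ((AA U T (2 ^ 0)).card : ℝ) := by
      rw [pow_zero, pow_zero, div_one]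
    rw [e0]
    exact h2
  have hM1 : 1 ≤ M := by
    by_contra h
    have : M * R < 1 * R := mul_lt_mul_of_pos_right (not_le.1 h) hR0
    linarith
  have hMall : ∀ i : ℕ, ((AA U T (2 ^ i)).card : ℝ) ≤ M * R * 2 ^ i := by
    intro i
    have h2i' : (0 : ℝ) < 2 ^ i := by positivity
    rw [← div_le_iff₀ h2i']
    by_cases hi : i ∈ range (U.card + 1)
    · rw [hMR']
      exact hmax i hi
    · rw [mem_range, not_lt] at hi
      rw [div_le_iff₀ h2i']
      have h3 : ((AA U T (2 ^ i)).card : ℝ) ≤ R ^ 2 := by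
        rw [hR]
        exact_mod_cast card_AA_le U T (2 ^ i)
      have h4 : (R : ℝ) ≤ 2 ^ i := by
        have h5 : U.card ≤ 2 ^ U.card := Nat.lt_two_pow_self.le
        have h6 : 2 ^ U.card ≤ 2 ^ i := Nat.pow_le_pow_right (by norm_num) (by omega)
        have h7 : U.card ≤ 2 ^ i := h5.trans h6
        rw [hR]
        exact_mod_cast h7
      calc ((AA U T (2 ^ i)).card : ℝ) ≤ R ^ 2 := h3
        _ = R * R := sq R
        _ ≤ (M * R) * 2 ^ i := mul_le_mul hAR h4 hR0.le (by positivity)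
  refine ⟨M, hMall, ?_⟩
  -- `M g ≤ R`
  have hMg : M * 2 ^ i0 ≤ R := by
    have h3 : A0 ≤ R ^ 2 := by
      have : (AA U T (2 ^ i0)).card ≤ U.card ^ 2 := card_AA_le U T _
      rw [hA0, hR]
      exact_mod_cast this
    have h4 : (M * 2 ^ i0) * R ≤ R * R := by
      calc (M * 2 ^ i0) * R = M * R * 2 ^ i0 := by ring
        _ = A0 := hMR
        _ ≤ R ^ 2 := h3
        _ = R * R := sq R
    exact le_of_mul_le_mul_right h4 hR0
  have hgR : (2 : ℝ) ^ i0 ≤ R := by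
    have : 1 * (2 : ℝ) ^ i0 ≤ M * 2 ^ i0 := mul_le_mul_of_nonneg_right hM1 h2i.le
    linarith
  have hgRn : 2 ^ i0 ≤ U.card := by
    rw [hR] at hgR
    exact_mod_cast hgR
  have hg2 : 4 * (2 ^ i0) ^ 2 ≤ 4 * U.card ^ 2 :=
    Nat.mul_le_mul_left _ (Nat.pow_le_pow_left hgRn 2)
  have hDg : ∀ n : ℕ, 1 ≤ n → n ≤ 4 * (2 ^ i0) ^ 2 → (n.divisors.card : ℝ) ≤ D :=
    fun n h1 h2 => hD n h1 (h2.trans hg2)
  have hQ1 : 1 ≤ 4 * (2 ^ i0) ^ 2 := by
    have : 1 ≤ 2 ^ i0 := Nat.one_le_two_pow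
    nlinarith
  have htw := two_walks hPC hT hU (g := 2 ^ i0) Nat.one_le_two_pow hDg
  have hET := ET_le (U := U) hT hQ1 hMall
  have hLam : ((Nat.log 2 (4 * (2 ^ i0) ^ 2) + 1 : ℕ) : ℝ) ≤ D := by
    have h5 := hDg (2 ^ Nat.log 2 (4 * (2 ^ i0) ^ 2)) Nat.one_le_two_pow
      (Nat.pow_log_le_self 2 (by omega))
    rw [Nat.divisors_prime_pow Nat.prime_two, Finset.card_map, Finset.card_range] at h5
    exact h5
  set ρ : ℝ := (R ^ 3 / T) ^ (1 / 4 : ℝ) with hρ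
  have hρ0 : 0 ≤ ρ := by positivity
  have hρ4 : ρ ^ 4 = R ^ 3 / T := by
    rw [hρ, ← Real.rpow_natCast, ← Real.rpow_mul (by positivity)]
    norm_num
  -- main inequality
  set G : ℝ := 2 ^ i0 with hG
  have hmain : M ^ 4 ≤ 60 * D ^ 3 * M ^ 3 + 3840 * D ^ 2 * ρ ^ 4 := by
    have h6 : (M * R * G) ^ 2 ≤
        R * (15 * D ^ 2 * (D * (M * R * (4 * G ^ 2)) + 16 * R ^ 2 * (4 * G ^ 2) ^ 2 / T)) := by
      rw [hMR]
      refine htw.trans ?_
      refine mul_le_mul_of_nonneg_left ?_ hR0.le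
      refine mul_le_mul_of_nonneg_left ?_ (by positivity)
      refine hET.trans ?_
      push_cast
      refine add_le_add ?_ le_rfl
      refine mul_le_mul_of_nonneg_right ?_ (by positivity)
      push_cast at hLam
      exact hLam
    have h7 : (M * R * G) ^ 2 = M ^ 2 * (R ^ 2 * G ^ 2) := by ring
    have h8 : R * (15 * D ^ 2 * (D * (M * R * (4 * G ^ 2)) + 16 * R ^ 2 * (4 * G ^ 2) ^ 2 / T)) =
        (60 * D ^ 3 * M + 3840 * D ^ 2 * (R / T) * G ^ 2) * (R ^ 2 * G ^ 2) := by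
      field_simp
      ring
    rw [h7, h8] at h6
    have h9 : M ^ 2 ≤ 60 * D ^ 3 * M + 3840 * D ^ 2 * (R / T) * G ^ 2 :=
      le_of_mul_le_mul_right h6 (by positivity)
    have h10 : M ^ 2 * G ^ 2 ≤ R ^ 2 := by
      rw [← mul_pow]
      exact pow_le_pow_left₀ (by positivity) hMg 2
    calc M ^ 4 = M ^ 2 * M ^ 2 := by ring
      _ ≤ M ^ 2 * (60 * D ^ 3 * M + 3840 * D ^ 2 * (R / T) * G ^ 2) :=
          mul_le_mul_of_nonneg_left h9 (by positivity)
      _ = 60 * D ^ 3 * M ^ 3 + 3840 * D ^ 2 * (R / T) * (M ^ 2 * G ^ 2) := by ring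
      _ ≤ 60 * D ^ 3 * M ^ 3 + 3840 * D ^ 2 * (R / T) * R ^ 2 := by
          refine add_le_add le_rfl (mul_le_mul_of_nonneg_left h10 (by positivity))
      _ = 60 * D ^ 3 * M ^ 3 + 3840 * D ^ 2 * ρ ^ 4 := by
          rw [hρ4]
          ring
  by_contra hcon
  rw [not_le] at hcon
  have hD3 : 1 ≤ D ^ 3 := one_le_pow₀ hD1
  have hM0 : 0 < M := by linarith
  have k1 : 120 * D ^ 3 ≤ M := by nlinarith
  have k2 : 60 * D ^ 3 * M ^ 3 ≤ M ^ 4 / 2 := by
    have : 60 * D ^ 3 * M ^ 3 ≤ M / 2 * M ^ 3 :=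
      mul_le_mul_of_nonneg_right (by linarith) (by positivity)
    calc 60 * D ^ 3 * M ^ 3 ≤ M / 2 * M ^ 3 := this
      _ = M ^ 4 / 2 := by ring
  have k3 : 120 * D * ρ ≤ M := by
    have k4 : D ≤ D ^ 3 := le_self_pow₀ hD1 (by norm_num)
    nlinarith
  have k5 : (120 * D * ρ) ^ 4 ≤ M ^ 4 := pow_le_pow_left₀ (by positivity) k3 4
  have k6 : 3840 * D ^ 2 * ρ ^ 4 * 54000 ≤ (120 * D * ρ) ^ 4 := by
    have k7 : (120 * D * ρ) ^ 4 = 207360000 * (D ^ 4 * ρ ^ 4) := by ring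
    have k8 : D ^ 2 * ρ ^ 4 ≤ D ^ 4 * ρ ^ 4 :=
      mul_le_mul_of_nonneg_right (pow_le_pow_right₀ hD1 (by norm_num)) (by positivity)
    rw [k7]
    nlinarith
  have k9 : 0 < M ^ 4 := by positivity
  linarith

/-- (6.6) -/
theorem twoWalk (hPC : PairCount) : TwoWalk := by
  intro h ε hh hε
  set ε1 : ℝ := min ε 1 / 20 with hε1
  have hmin : 0 < min ε 1 := lt_min hε one_pos
  have hε10 : 0 < ε1 := by positivity
  have hε11 : ε1 ≤ 1 := by
    have := min_le_right ε 1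
    rw [hε1]
    linarith
  have hε20 : 20 * ε1 ≤ ε := by
    have := min_le_left ε 1
    rw [hε1]
    linarith
  obtain ⟨C1, hC1, hdiv⟩ := Pool.Agent.Helper89.SLE.divisor_bound ε1 hε10
  have hC10 : 0 < C1 := by linarith
  have hh0 : (0 : ℝ) < h := by exact_mod_cast hh
  refine ⟨120 * C1 ^ 4 * h ^ 2 + 16 * h ^ 2, by positivity, ?_⟩
  intro X T u0 U Q hX hT hTX hQ hQX hUI hUs
  have hX0 : 0 < X := by linarith
  have hX1 : 1 ≤ X := by linarith
  have hT0 : 0 < T := by linarith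
  have hQ0 : (0 : ℝ) < Q := by exact_mod_cast hQ
  rcases U.eq_empty_or_nonempty with hU0 | hne
  · have : ET U T Q (h * Q) = 0 := by
      rw [hU0]
      simp [ET]
    rw [this]
    simp only [Nat.cast_zero]
    positivity
  set R : ℝ := (U.card : ℝ) with hR
  have hR0 : 0 ≤ R := Nat.cast_nonneg _
  -- `R ≤ 1 + T`
  have hRT : R ≤ 1 + T := by
    have := card_spaced U (fun u => u) (δ := 1 / T) (x := u0) (ℓ := 1) (by positivity)
      (fun u hu u' hu' hne => hUs u hu u' hu' hne) (fun u hu => hUI u hu) (by norm_num)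
    simpa using this
  have hR2X : R ≤ 2 * X := by linarith
  have h4R : 4 * R ^ 2 ≤ X ^ 6 := by
    have e1 : R ^ 2 ≤ (2 * X) ^ 2 := pow_le_pow_left₀ hR0 hR2X 2
    have e2 : (2 : ℝ) ^ 4 ≤ X ^ 4 := pow_le_pow_left₀ (by norm_num) hX 4
    have e3 : (16 : ℝ) * X ^ 2 ≤ X ^ 4 * X ^ 2 :=
      mul_le_mul_of_nonneg_right (by linarith) (by positivity)
    nlinarith
  set D : ℝ := C1 * (X ^ 6) ^ ε1 with hD
  have hDn : ∀ n : ℕ, 1 ≤ n → n ≤ 4 * U.card ^ 2 → (n.divisors.card : ℝ) ≤ D := by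
    intro n h1 h2
    refine (hdiv n h1).trans ?_
    refine mul_le_mul_of_nonneg_left ?_ hC10.le
    refine Real.rpow_le_rpow (Nat.cast_nonneg _) ?_ hε10.le
    have h3 : (n : ℝ) ≤ 4 * R ^ 2 := by
      rw [hR]
      exact_mod_cast h2
    exact h3.trans h4R
  obtain ⟨M, hM, hMle⟩ := exists_M hPC hT hUs hne hDn
  have hQ' : 1 ≤ h * Q := Nat.mul_pos hh hQ
  have h1 := ET_le (U := U) hT hQ' hM
  have h2 : (ET U T Q (h * Q) : ℝ) ≤ ET U T 1 (h * Q) := by exact_mod_cast ET_mono hQ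
  refine h2.trans (h1.trans ?_)
  set ρ : ℝ := (R ^ 3 / T) ^ (1 / 4 : ℝ) with hρ
  have hρ0 : 0 ≤ ρ := by positivity
  -- the logarithm
  have hlog : ((Nat.log 2 (h * Q) + 1 : ℕ) : ℝ) ≤ C1 * (h * (X ^ 2) ^ ε1) := by
    have e1 := hdiv (2 ^ Nat.log 2 (h * Q)) (by positivity)
    rw [Nat.divisors_prime_pow Nat.prime_two, Finset.card_map, Finset.card_range] at e1
    refine e1.trans (mul_le_mul_of_nonneg_left ?_ hC10.le)
    have e2 : ((2 ^ Nat.log 2 (h * Q) : ℕ) : ℝ) ≤ h * Q := by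
      have : 2 ^ Nat.log 2 (h * Q) ≤ h * Q := Nat.pow_log_le_self 2 (by omega)
      exact_mod_cast this
    refine (Real.rpow_le_rpow (Nat.cast_nonneg _) e2 hε10.le).trans ?_
    rw [Real.mul_rpow hh0.le hQ0.le]
    refine mul_le_mul ?_ (Real.rpow_le_rpow hQ0.le hQX hε10.le) (by positivity) hh0.le
    have e3 : (1 : ℝ) ≤ h := by exact_mod_cast hh
    calc (h : ℝ) ^ ε1 ≤ (h : ℝ) ^ (1 : ℝ) := Real.rpow_le_rpow_of_exponent_le e3 hε11
      _ = h := Real.rpow_one _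
  -- powers of `X`
  have hXX : (X ^ 2) ^ ε1 * ((X ^ 6) ^ ε1) ^ 3 ≤ X ^ ε := by
    have e1 : (X ^ 2) ^ ε1 = X ^ (2 * ε1) := by
      rw [← Real.rpow_natCast, ← Real.rpow_mul hX0.le]
      norm_num
    have e2 : ((X ^ 6) ^ ε1) ^ 3 = X ^ (18 * ε1) := by
      rw [← Real.rpow_natCast, ← Real.rpow_natCast, ← Real.rpow_mul hX0.le,
        ← Real.rpow_mul hX0.le]
      congr 1
      push_cast
      ring
    rw [e1, e2, ← Real.rpow_add hX0]
    exact Real.rpow_le_rpow_of_exponent_le hX1 (by linarith)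
  have hXε : 1 ≤ X ^ ε := Real.one_le_rpow hX1 hε.le
  have hD0 : 0 ≤ D := by positivity
  have t1 : ((Nat.log 2 (h * Q) + 1 : ℕ) : ℝ) * (M * R * ((h * Q : ℕ) : ℝ)) ≤
      (120 * C1 ^ 4 * h ^ 2) * X ^ ε * (R * Q * (1 + ρ)) := by
    push_cast
    calc ((Nat.log 2 (h * Q) : ℝ) + 1) * (M * R * ((h : ℝ) * Q))
        ≤ (C1 * (h * (X ^ 2) ^ ε1)) * ((120 * D ^ 3 * (1 + ρ)) * R * ((h : ℝ) * Q)) := by
          push_cast at hlog
          have e1 : M * R * ((h : ℝ) * Q) ≤ (120 * D ^ 3 * (1 + ρ)) * R * ((h : ℝ) * Q) := by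
            refine mul_le_mul_of_nonneg_right ?_ (by positivity)
            exact mul_le_mul_of_nonneg_right hMle hR0
          calc ((Nat.log 2 (h * Q) : ℝ) + 1) * (M * R * ((h : ℝ) * Q))
              ≤ ((Nat.log 2 (h * Q) : ℝ) + 1) * ((120 * D ^ 3 * (1 + ρ)) * R * ((h : ℝ) * Q)) :=
                mul_le_mul_of_nonneg_left e1 (by positivity)
            _ ≤ _ := mul_le_mul_of_nonneg_right hlog (by positivity)
      _ = (120 * C1 ^ 4 * h ^ 2) * ((X ^ 2) ^ ε1 * ((X ^ 6) ^ ε1) ^ 3) * (R * Q * (1 + ρ)) := by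
          rw [hD]
          ring
      _ ≤ (120 * C1 ^ 4 * h ^ 2) * X ^ ε * (R * Q * (1 + ρ)) := by
          refine mul_le_mul_of_nonneg_right ?_ (by positivity)
          exact mul_le_mul_of_nonneg_left hXX (by positivity)
  have t2 : 16 * R ^ 2 * ((h * Q : ℕ) : ℝ) ^ 2 / T ≤ (16 * h ^ 2) * X ^ ε * (R ^ 2 * Q ^ 2 / T) := by
    push_cast
    calc 16 * R ^ 2 * ((h : ℝ) * Q) ^ 2 / T = (16 * h ^ 2) * 1 * (R ^ 2 * Q ^ 2 / T) := by ring
      _ ≤ (16 * h ^ 2) * X ^ ε * (R ^ 2 * Q ^ 2 / T) := by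
          refine mul_le_mul_of_nonneg_right ?_ (by positivity)
          exact mul_le_mul_of_nonneg_left hXε (by positivity)
  have t3 : 0 ≤ (120 * C1 ^ 4 * h ^ 2) * X ^ ε * (R ^ 2 * Q ^ 2 / T) := by positivity
  have t4 : 0 ≤ (16 * (h : ℝ) ^ 2) * X ^ ε * (R * Q * (1 + ρ)) := by positivity
  calc ((Nat.log 2 (h * Q) + 1 : ℕ) : ℝ) * (M * R * ((h * Q : ℕ) : ℝ)) +
        16 * R ^ 2 * ((h * Q : ℕ) : ℝ) ^ 2 / T
      ≤ (120 * C1 ^ 4 * h ^ 2) * X ^ ε * (R * Q * (1 + ρ)) +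
        (16 * h ^ 2) * X ^ ε * (R ^ 2 * Q ^ 2 / T) := add_le_add t1 t2
    _ ≤ (120 * C1 ^ 4 * h ^ 2) * X ^ ε * (R * Q * (1 + ρ)) +
        (16 * h ^ 2) * X ^ ε * (R ^ 2 * Q ^ 2 / T) +
        (120 * C1 ^ 4 * h ^ 2) * X ^ ε * (R ^ 2 * Q ^ 2 / T) +
        (16 * (h : ℝ) ^ 2) * X ^ ε * (R * Q * (1 + ρ)) := by linarith
    _ = (120 * C1 ^ 4 * h ^ 2 + 16 * h ^ 2) * X ^ ε * (R * Q * (1 + ρ) + R ^ 2 * Q ^ 2 / T) := by
        ring

end Pool.Agent.Helper71.KC
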